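import Pool.Agent.Lib_MP_a23b08_s.SFinal
import Pool.Agent.Lib_MP_a23b08_n0.N0Good

/-!
# A non-degenerate quiver with potential whose exchange groupoid is not simply connected

For the quiver with potential `Gin.torus k` (closed torus with two punctures, `N = 3`) the exchange groupoid
of `D_fd(Γ)` is not simply connected, so it is not a universal cover: part (b) of the question fails.
The definitions are in `Pool.Agent.Lib_MP_a23b08_s.SDef` (namespace `Gin`: dg modules over the Ginzburg dg algebra, the
derived category by its universal property, `D_fd(Γ)` and its standard t-structure) and in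
`Pool.Agent.Lib_MP_a23b08_t.TDef` (namespace `EGr`: finite hearts, simple tilts, exchange graph, relations).
-/

open CategoryTheory CategoryTheory.Limits CategoryTheory.Triangulated
  CategoryTheory.Pretriangulated

theorem Pool.Agent.Results.MP_a23b08_al.NotSimplyConnected.result (k : Type) [Field k]
    [IsAlgClosed k] :
    ∃ (Q : Gin.QP k) (D : Type 1) (_ : Category.{1} D) (_ : Preadditive D) (_ : HasZeroObject D)
      (_ : HasShift D ℤ) (_ : ∀ n : ℤ, (shiftFunctor D n).Additive) (_ : Pretriangulated D)
      (_ : Linear k D) (L : Gin.Mod Q ⥤ D) (e : Gin.ShiftIso L) (P : ObjectProperty D)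
      (_ : P.IsTriangulated) (t : TStructure P.FullSubcategory),
      Gin.IsDerived L e ∧ Gin.IsStd L P t ∧ (∀ a : EGr.Vertex t, EGr.NonDeg a.t) ∧
        ¬ EGr.SimplyConnected k t :=
  Gin.main_of_good k (GZ.good_torus k)
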